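import Mathlib

namespace Pool.Agent.Results.MP_9404a8_an.FailsPOne

open Complex Metric Set
open scoped ENNReal

/-- The class `S`: holomorphic and univalent on the unit disk, `f 0 = 0`, `f' 0 = 1`. -/
def ClassS (f : ℂ → ℂ) : Prop :=
  DifferentiableOn ℂ f (ball 0 1) ∧ InjOn f (ball 0 1) ∧ f 0 = 0 ∧ deriv f 0 = 1

/-- `z / f z`, read as `1` at `z = 0`. -/
noncomputable def ratio (f : ℂ → ℂ) (z : ℂ) : ℂ := if z = 0 then 1 else z / f z

/-- The bracket `(f z - f w)/(z - w) * z/f z * w/f w` for `z ≠ w`, and `f' z * z^2/(f z)^2` on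
the diagonal. -/
noncomputable def bracket (f : ℂ → ℂ) (z w : ℂ) : ℂ :=
  if z = w then deriv f z * ratio f z ^ 2
  else (f z - f w) / (z - w) * ratio f z * ratio f w

/-- `F` is the holomorphic branch of the logarithm of the bracket on `Δ × Δ` with
`F (0, 0) = 0`. -/
def IsLogBranch (f : ℂ → ℂ) (F : ℂ × ℂ → ℂ) : Prop :=
  DifferentiableOn ℂ F (ball (0 : ℂ) 1 ×ˢ ball (0 : ℂ) 1) ∧
  (∀ z ∈ ball (0 : ℂ) 1, ∀ w ∈ ball (0 : ℂ) 1, exp (F (z, w)) = bracket f z w) ∧
  F (0, 0) = 0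

/-- `S_f^{[p,q]}(z) = (∂^{p+q} F / ∂z^p ∂w^q)(z, z)`, as a function of the branch `F`. -/
noncomputable def schwarzian (F : ℂ × ℂ → ℂ) (p q : ℕ) (z : ℂ) : ℂ :=
  iteratedDeriv p (fun z' => iteratedDeriv q (fun w' => F (z', w')) z) z

/-- The norm `sup_{z ∈ Δ} |φ z| (1 - |z|^2)^n`, with values in `[0, ∞]`. -/
noncomputable def bNorm (n : ℕ) (φ : ℂ → ℂ) : ℝ≥0∞ :=
  ⨆ z ∈ ball (0 : ℂ) 1, ENNReal.ofReal (‖φ z‖ * (1 - ‖z‖ ^ 2) ^ n)

/-! ### The explicit function -/

/-- the real parameter `c = 199/201` as a complex number -/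
noncomputable def c : ℂ := 199 / 201

/-- the unimodular number `e = c + i √(1 - c²)` -/
noncomputable def e : ℂ := ⟨199 / 201, Real.sqrt (1 - (199 / 201) ^ 2)⟩

/-- the function -/
noncomputable def f (z : ℂ) : ℂ := z * (1 - c * z) / (1 - e * z) ^ 2

lemma c_eq : c = ((199 / 201 : ℝ) : ℂ) := by unfold c; push_cast; ring

lemma norm_e : ‖e‖ = 1 := by
  have h : Real.sqrt (1 - (199 / 201) ^ 2) ^ 2 = 1 - (199 / 201) ^ 2 := Real.sq_sqrt (by norm_num)
  have h2 : ‖e‖ ^ 2 = 1 := by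
    rw [← Complex.normSq_eq_norm_sq, Complex.normSq_apply]
    simp only [e]
    nlinarith [h]
  nlinarith [norm_nonneg e]

lemma e_sq : e ^ 2 + 1 = 2 * c * e := by
  have h : Real.sqrt (1 - (199 / 201) ^ 2) ^ 2 = 1 - (199 / 201) ^ 2 := Real.sq_sqrt (by norm_num)
  rw [c_eq]
  apply Complex.ext
  · simp only [e, pow_two, add_re, mul_re, one_re, ofReal_re, ofReal_im, re_ofNat, im_ofNat,
      mul_im]
    nlinarith [h]
  · simp only [e, pow_two, add_im, mul_im, one_im, ofReal_re, ofReal_im, re_ofNat, im_ofNat,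
      mul_re]
    ring

lemma norm_c : ‖c‖ = 199 / 201 := by
  rw [c_eq, Complex.norm_real]; norm_num

lemma one_sub_ez {z : ℂ} (hz : z ∈ ball (0 : ℂ) 1) : 1 - e * z ≠ 0 := by
  intro h
  have h1 : e * z = 1 := by linear_combination -h
  have h2 : ‖e * z‖ = 1 := by rw [h1]; simp
  rw [norm_mul, norm_e, one_mul] at h2
  rw [mem_ball_zero_iff] at hz
  linarith

lemma one_sub_cz {z : ℂ} (hz : z ∈ ball (0 : ℂ) 1) : 1 - c * z ≠ 0 := by
  intro h
  have h1 : c * z = 1 := by linear_combination -h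
  have h2 : ‖c * z‖ = 1 := by rw [h1]; simp
  rw [norm_mul, norm_c] at h2
  rw [mem_ball_zero_iff] at hz
  nlinarith [norm_nonneg z]

lemma norm_lt {w : ℂ} (hw : w ∈ ball (0 : ℂ) 1) : ‖w - c‖ < ‖1 - c * w‖ := by
  rw [mem_ball_zero_iff] at hw
  apply lt_of_pow_lt_pow_left₀ 2 (norm_nonneg _)
  rw [← Complex.normSq_eq_norm_sq, ← Complex.normSq_eq_norm_sq]
  have h2 : Complex.normSq w < 1 := by
    rw [Complex.normSq_eq_norm_sq]; nlinarith [norm_nonneg w]
  rw [Complex.normSq_apply] at h2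
  rw [c_eq]
  simp only [Complex.normSq_apply, sub_re, sub_im, one_re, one_im, mul_re, mul_im, ofReal_re,
    ofReal_im]
  nlinarith [h2]

lemma norm_quot_lt {w : ℂ} (hw : w ∈ ball (0 : ℂ) 1) : ‖(w - c) / (1 - c * w)‖ < 1 := by
  rw [norm_div]
  exact (div_lt_one (norm_pos_iff.mpr (one_sub_cz hw))).mpr (norm_lt hw)

lemma norm_mul_quot_lt {z w : ℂ} (hz : z ∈ ball (0 : ℂ) 1) (hw : w ∈ ball (0 : ℂ) 1) :
    ‖z * ((w - c) / (1 - c * w))‖ < 1 := by
  rw [norm_mul]
  rw [mem_ball_zero_iff] at hz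
  have := norm_quot_lt hw
  nlinarith [norm_nonneg z, norm_nonneg ((w - c) / (1 - c * w))]

/-- `D(z,w) = 1 - c (z + w) + z w` does not vanish. -/
lemma D_ne {z w : ℂ} (hz : z ∈ ball (0 : ℂ) 1) (hw : w ∈ ball (0 : ℂ) 1) :
    1 - c * (z + w) + z * w ≠ 0 := by
  intro h
  have h0 := one_sub_cz hw
  have h1 : z * ((w - c) / (1 - c * w)) = -1 := by
    rw [← mul_div_assoc, div_eq_iff h0]
    linear_combination h
  have h2 := norm_mul_quot_lt hz hw
  rw [h1] at h2
  simp at h2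

lemma f_sub {z w : ℂ} (hz : z ∈ ball (0 : ℂ) 1) (hw : w ∈ ball (0 : ℂ) 1) :
    f z - f w = (z - w) * (1 - c * (z + w) + z * w) / ((1 - e * z) ^ 2 * (1 - e * w) ^ 2) := by
  have h1 := one_sub_ez hz
  have h2 := one_sub_ez hw
  unfold f
  rw [div_sub_div _ _ (pow_ne_zero 2 h1) (pow_ne_zero 2 h2)]
  congr 1
  linear_combination (-(z - w) * z * w) * e_sq

lemma hasDerivAt_f {z : ℂ} (hz : z ∈ ball (0 : ℂ) 1) :
    HasDerivAt f ((1 - 2 * c * z + e * z) / (1 - e * z) ^ 3) z := by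
  have h1 := one_sub_ez hz
  have hn : HasDerivAt (fun z : ℂ => z * (1 - c * z)) (1 * (1 - c * z) + z * (0 - c * 1)) z :=
    (hasDerivAt_id z).mul ((hasDerivAt_const z (1 : ℂ)).sub ((hasDerivAt_id z).const_mul c))
  have hd : HasDerivAt (fun z : ℂ => (1 - e * z) ^ 2) (((2 : ℕ) : ℂ) * (1 - e * z) ^ (2 - 1) * (0 - e * 1)) z :=
    ((hasDerivAt_const z (1 : ℂ)).sub ((hasDerivAt_id z).const_mul e)).pow 2
  refine (hn.fun_div hd (pow_ne_zero 2 h1)).congr_deriv ?_
  rw [div_eq_div_iff (pow_ne_zero 2 (pow_ne_zero 2 h1)) (pow_ne_zero 3 h1)]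
  push_cast
  ring

lemma f_classS : ClassS f := by
  refine ⟨fun z hz => (hasDerivAt_f hz).differentiableAt.differentiableWithinAt, ?_, ?_, ?_⟩
  · intro z hz w hw h
    have h1 := f_sub hz hw
    rw [h, sub_self] at h1
    have h2 := (div_eq_zero_iff.mp h1.symm).resolve_right
      (mul_ne_zero (pow_ne_zero 2 (one_sub_ez hz)) (pow_ne_zero 2 (one_sub_ez hw)))
    have h3 := (mul_eq_zero.mp h2).resolve_right (D_ne hz hw)
    exact sub_eq_zero.mp h3
  · simp [f]
  · have := (hasDerivAt_f (z := 0) (by simp)).deriv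
    rw [this]; simp

lemma ratio_f {z : ℂ} (hz : z ∈ ball (0 : ℂ) 1) : ratio f z = (1 - e * z) ^ 2 / (1 - c * z) := by
  unfold ratio
  have h1 := one_sub_ez hz
  have h2 := one_sub_cz hz
  split_ifs with h
  · subst h; simp
  · unfold f; field_simp

lemma bracket_f {z w : ℂ} (hz : z ∈ ball (0 : ℂ) 1) (hw : w ∈ ball (0 : ℂ) 1) :
    bracket f z w = (1 - c * (z + w) + z * w) / ((1 - c * z) * (1 - c * w)) := by
  have h1 := one_sub_ez hz
  have h2 := one_sub_cz hz
  have h3 := one_sub_ez hw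
  have h4 := one_sub_cz hw
  unfold bracket
  split_ifs with h
  · subst h
    rw [(hasDerivAt_f hz).deriv, ratio_f hz]
    field_simp
    linear_combination (-z ^ 2) * e_sq
  · rw [f_sub hz hw, ratio_f hz, ratio_f hw]
    have h5 : z - w ≠ 0 := sub_ne_zero.mpr h
    rw [div_div, div_mul_div_comm, div_mul_div_comm, div_eq_div_iff
      (mul_ne_zero (mul_ne_zero (mul_ne_zero (mul_ne_zero (pow_ne_zero 2 h1) (pow_ne_zero 2 h3))
        h5) h2) h4) (mul_ne_zero h2 h4)]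
    ring

/-- The explicit branch. -/
noncomputable def F0 (p : ℂ × ℂ) : ℂ :=
  log (1 + p.1 * ((p.2 - c) / (1 - c * p.2))) - log (1 - c * p.1)

lemma mem_slit_one_add {u : ℂ} (hu : ‖u‖ < 1) : 1 + u ∈ slitPlane :=
  mem_slitPlane_of_norm_lt_one hu

lemma mem_slit_one_sub_cz {z : ℂ} (hz : z ∈ ball (0 : ℂ) 1) : 1 - c * z ∈ slitPlane := by
  rw [sub_eq_add_neg]
  apply mem_slit_one_add
  rw [norm_neg, norm_mul, norm_c]
  rw [mem_ball_zero_iff] at hz
  nlinarith [norm_nonneg z]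

lemma F0_branch : IsLogBranch f F0 := by
  refine ⟨?_, ?_, ?_⟩
  · rintro ⟨z, w⟩ ⟨hz, hw⟩
    simp only at hz hw
    apply DifferentiableAt.differentiableWithinAt
    unfold F0
    have h4 := one_sub_cz hw
    apply DifferentiableAt.sub
    · apply DifferentiableAt.clog
      · apply DifferentiableAt.const_add
        apply DifferentiableAt.mul differentiableAt_fst
        have hd1 : DifferentiableAt ℂ (fun y : ℂ × ℂ => y.2 - c) (z, w) :=
          differentiableAt_snd.sub_const c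
        have hd2 : DifferentiableAt ℂ (fun y : ℂ × ℂ => 1 - c * y.2) (z, w) :=
          (differentiableAt_snd.const_mul c).const_sub 1
        simp only [div_eq_mul_inv]
        exact hd1.mul (hd2.fun_inv h4)
      · exact mem_slit_one_add (norm_mul_quot_lt hz hw)
    · apply DifferentiableAt.clog
      · exact (differentiableAt_fst.const_mul c).const_sub 1
      · exact mem_slit_one_sub_cz hz
  · intro z hz w hw
    have h2 := one_sub_cz hz
    have h4 := one_sub_cz hw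
    rw [bracket_f hz hw]
    simp only [F0]
    rw [exp_sub, exp_log (slitPlane_ne_zero (mem_slit_one_add (norm_mul_quot_lt hz hw))),
      exp_log h2]
    rw [div_eq_div_iff h2 (mul_ne_zero h2 h4)]
    have h5 : (w - c) / (1 - c * w) * (1 - c * w) = w - c := div_mul_cancel₀ _ h4
    linear_combination (z * (1 - c * z)) * h5
  · simp [F0]

lemma unique_branch {F : ℂ × ℂ → ℂ} (hF : IsLogBranch f F) :
    EqOn F F0 (ball (0 : ℂ) 1 ×ˢ ball (0 : ℂ) 1) := by
  obtain ⟨h1, h2, h3⟩ := hF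
  obtain ⟨k1, k2, k3⟩ := F0_branch
  set G : ℂ × ℂ → ℝ := fun p => ((F p - F0 p) / (2 * Real.pi * I)).re with hG
  have hpi : (2 * Real.pi * I : ℂ) ≠ 0 := two_pi_I_ne_zero
  have hint : ∀ p ∈ (ball (0 : ℂ) 1 ×ˢ ball (0 : ℂ) 1), ∃ n : ℤ, F p - F0 p = n * (2 * Real.pi * I) := by
    rintro ⟨z, w⟩ ⟨hz, hw⟩
    have : exp (F (z, w) - F0 (z, w)) = 1 := by
      rw [exp_sub, h2 z hz w hw, k2 z hz w hw, div_self]
      rw [← k2 z hz w hw]
      exact exp_ne_zero _
    rw [exp_eq_one_iff] at this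
    exact this
  have hconn : IsPreconnected (ball (0 : ℂ) 1 ×ˢ ball (0 : ℂ) 1) :=
    ((convex_ball (0 : ℂ) 1).prod (convex_ball (0 : ℂ) 1)).isPreconnected
  have hdisc : IsDiscrete (range ((↑) : ℤ → ℝ)) :=
    Int.isClosedEmbedding_coe_real.isEmbedding.isInducing.isDiscrete_range
  have hcont : ContinuousOn G (ball (0 : ℂ) 1 ×ˢ ball (0 : ℂ) 1) := by
    apply Complex.continuous_re.comp_continuousOn
    exact (h1.continuousOn.sub k1.continuousOn).div_const _
  have hmaps : MapsTo G (ball (0 : ℂ) 1 ×ˢ ball (0 : ℂ) 1) (range ((↑) : ℤ → ℝ)) := by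
    intro p hp
    obtain ⟨n, hn⟩ := hint p hp
    refine ⟨n, ?_⟩
    simp only [hG, hn]
    rw [mul_div_assoc, div_self hpi, mul_one, Complex.intCast_re]
  intro p hp
  have h00 : ((0 : ℂ), (0 : ℂ)) ∈ (ball (0 : ℂ) 1 ×ˢ ball (0 : ℂ) 1) := by simp
  have key := hconn.constant_of_mapsTo hdisc hcont hmaps hp h00
  obtain ⟨n, hn⟩ := hint p hp
  simp only [hG, hn, h3, k3] at key
  rw [mul_div_assoc, div_self hpi, mul_one, Complex.intCast_re] at key
  simp at key
  rw [key] at hn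
  simp at hn
  exact sub_eq_zero.mp hn

/-! ### Derivatives of the explicit branch -/

lemma hasDerivAt_F0 {z w : ℂ} (hz : z ∈ ball (0 : ℂ) 1) (hw : w ∈ ball (0 : ℂ) 1) :
    HasDerivAt (fun w' => F0 (z, w'))
      (z * (1 - c ^ 2) / ((1 - c * (z + w) + z * w) * (1 - c * w))) w := by
  have h4 := one_sub_cz hw
  have hD := D_ne hz hw
  have h1 : HasDerivAt (fun w' : ℂ => w' - c) 1 w := (hasDerivAt_id w).sub_const c
  have h2 : HasDerivAt (fun w' : ℂ => 1 - c * w') (-(c * 1)) w :=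
    ((hasDerivAt_id w).const_mul c).const_sub 1
  have h3 := (((h1.fun_div h2 h4).const_mul z).const_add 1).clog
    (mem_slit_one_add (norm_mul_quot_lt hz hw))
  have h5 := h3.sub_const (log (1 - c * z))
  refine h5.congr_deriv ?_
  have h6 : 1 + z * ((w - c) / (1 - c * w)) = (1 - c * (z + w) + z * w) / (1 - c * w) := by
    rw [eq_div_iff h4]
    have h5 : (w - c) / (1 - c * w) * (1 - c * w) = w - c := div_mul_cancel₀ _ h4
    linear_combination z * h5
  rw [h6, div_div_eq_mul_div, ← mul_div_assoc, div_mul_eq_mul_div, div_div,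
    div_eq_div_iff (mul_ne_zero (pow_ne_zero 2 h4) hD) (mul_ne_zero hD h4)]
  ring

/-- `∂_w` of a branch, as a function of `z` for fixed `w = x`. -/
lemma deriv_branch {F : ℂ × ℂ → ℂ} (hF : IsLogBranch f F) {z w : ℂ} (hz : z ∈ ball (0 : ℂ) 1)
    (hw : w ∈ ball (0 : ℂ) 1) :
    deriv (fun w' => F (z, w')) w =
      z * (1 - c ^ 2) / ((1 - c * (z + w) + z * w) * (1 - c * w)) := by
  have h : (fun w' => F (z, w')) =ᶠ[nhds w] (fun w' => F0 (z, w')) := by
    filter_upwards [isOpen_ball.mem_nhds hw] with w' hw'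
    exact unique_branch hF ⟨hz, hw'⟩
  rw [h.deriv_eq, (hasDerivAt_F0 hz hw).deriv]

lemma deriv_branch' {F : ℂ × ℂ → ℂ} (hF : IsLogBranch f F) {z w : ℂ} (hz : z ∈ ball (0 : ℂ) 1)
    (hw : w ∈ ball (0 : ℂ) 1) :
    deriv (fun w' => F (z, w')) w =
      (z - c) / (1 - c * (z + w) + z * w) + c / (1 - c * w) := by
  have h4 := one_sub_cz hw
  have hD := D_ne hz hw
  rw [deriv_branch hF hz hw, div_add_div _ _ hD h4,
    div_eq_div_iff (mul_ne_zero hD h4) (mul_ne_zero hD h4)]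
  ring

lemma iter_z {F : ℂ × ℂ → ℂ} (hF : IsLogBranch f F) {x : ℂ} (hx : x ∈ ball (0 : ℂ) 1) (k : ℕ) :
    ∀ z ∈ ball (0 : ℂ) 1,
      iteratedDeriv (k + 1) (fun z' => iteratedDeriv 1 (fun w' => F (z', w')) x) z =
        ((k + 1).factorial : ℂ) * (1 - c ^ 2) * (c - x) ^ k /
          (1 - c * (z + x) + z * x) ^ (k + 2) := by
  have h4 := one_sub_cz hx
  induction k with
  | zero =>
    intro z hz
    have hD := D_ne hz hx
    rw [zero_add, iteratedDeriv_one]
    have h : (fun z' => iteratedDeriv 1 (fun w' => F (z', w')) x) =ᶠ[nhds z]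
        (fun z' => z' * (1 - c ^ 2) / ((1 - c * (z' + x) + z' * x) * (1 - c * x))) := by
      filter_upwards [isOpen_ball.mem_nhds hz] with z' hz'
      rw [iteratedDeriv_one, deriv_branch hF hz' hx]
    rw [h.deriv_eq]
    have h1 : HasDerivAt (fun z' : ℂ => z' * (1 - c ^ 2)) (1 * (1 - c ^ 2)) z :=
      (hasDerivAt_id z).mul_const _
    have h2 : HasDerivAt (fun z' : ℂ => (1 - c * (z' + x) + z' * x) * (1 - c * x))
        ((-(c * 1) + 1 * x) * (1 - c * x)) z :=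
      (((((hasDerivAt_id z).add_const x).const_mul c).const_sub 1).add
        ((hasDerivAt_id z).mul_const x)).mul_const _
    have h3 := h1.fun_div h2 (mul_ne_zero hD h4)
    rw [h3.deriv]
    rw [div_eq_div_iff (pow_ne_zero 2 (mul_ne_zero hD h4)) (pow_ne_zero _ hD)]
    simp only [Nat.factorial, pow_zero]
    push_cast
    ring
  | succ k ih =>
    intro z hz
    have hD := D_ne hz hx
    rw [iteratedDeriv_succ]
    have h : iteratedDeriv (k + 1) (fun z' => iteratedDeriv 1 (fun w' => F (z', w')) x)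
        =ᶠ[nhds z] (fun z' => ((k + 1).factorial : ℂ) * (1 - c ^ 2) * (c - x) ^ k /
          (1 - c * (z' + x) + z' * x) ^ (k + 2)) := by
      filter_upwards [isOpen_ball.mem_nhds hz] with z' hz'
      exact ih z' hz'
    rw [h.deriv_eq]
    have h2 : HasDerivAt (fun z' : ℂ => (1 - c * (z' + x) + z' * x)) (-(c * 1) + 1 * x) z :=
      ((((hasDerivAt_id z).add_const x).const_mul c).const_sub 1).add
        ((hasDerivAt_id z).mul_const x)
    have h3 := (hasDerivAt_const z (((k + 1).factorial : ℂ) * (1 - c ^ 2) * (c - x) ^ k)).fun_div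
      (h2.fun_pow (k + 2)) (pow_ne_zero _ hD)
    rw [h3.deriv]
    rw [div_eq_div_iff (pow_ne_zero 2 (pow_ne_zero _ hD)) (pow_ne_zero _ hD)]
    rw [Nat.factorial_succ (k + 1)]
    push_cast
    ring

lemma iter_w {F : ℂ × ℂ → ℂ} (hF : IsLogBranch f F) {z : ℂ} (hz : z ∈ ball (0 : ℂ) 1) (k : ℕ) :
    ∀ w ∈ ball (0 : ℂ) 1,
      iteratedDeriv (k + 1) (fun w' => F (z, w')) w =
        (k.factorial : ℂ) * ((c - z) ^ k * (z - c) / (1 - c * (z + w) + z * w) ^ (k + 1) +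
          c ^ (k + 1) / (1 - c * w) ^ (k + 1)) := by
  induction k with
  | zero =>
    intro w hw
    rw [zero_add, iteratedDeriv_one, deriv_branch' hF hz hw]
    simp
  | succ k ih =>
    intro w hw
    have hD := D_ne hz hw
    have h4 := one_sub_cz hw
    rw [iteratedDeriv_succ]
    have h : iteratedDeriv (k + 1) (fun w' => F (z, w'))
        =ᶠ[nhds w] (fun w => (k.factorial : ℂ) * ((c - z) ^ k * (z - c) /
          (1 - c * (z + w) + z * w) ^ (k + 1) + c ^ (k + 1) / (1 - c * w) ^ (k + 1))) := by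
      filter_upwards [isOpen_ball.mem_nhds hw] with w' hw'
      exact ih w' hw'
    rw [h.deriv_eq]
    have h2 : HasDerivAt (fun w' : ℂ => (1 - c * (z + w') + z * w')) (-(c * 1) + z * 1) w :=
      ((((hasDerivAt_id w).const_add z).const_mul c).const_sub 1).add
        ((hasDerivAt_id w).const_mul z)
    have h2' : HasDerivAt (fun w' : ℂ => (1 - c * w')) (-(c * 1)) w :=
      ((hasDerivAt_id w).const_mul c).const_sub 1
    have h3 := (((hasDerivAt_const w ((c - z) ^ k * (z - c))).fun_div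
      (h2.fun_pow (k + 1)) (pow_ne_zero _ hD)).add
      ((hasDerivAt_const w (c ^ (k + 1))).fun_div
      (h2'.fun_pow (k + 1)) (pow_ne_zero _ h4))).const_mul (k.factorial : ℂ)
    have h5 : HasDerivAt (fun w => (k.factorial : ℂ) * ((c - z) ^ k * (z - c) /
          (1 - c * (z + w) + z * w) ^ (k + 1) + c ^ (k + 1) / (1 - c * w) ^ (k + 1))) _ w := h3
    rw [h5.deriv]
    rw [Nat.factorial_succ k]
    push_cast
    have q1 : (0 * (1 - c * (z + w) + z * w) ^ (k + 1) -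
            (c - z) ^ k * (z - c) * (((k : ℂ) + 1) * (1 - c * (z + w) + z * w) ^ k *
              (-(c * 1) + z * 1))) / ((1 - c * (z + w) + z * w) ^ (k + 1)) ^ 2 =
        ((k : ℂ) + 1) * ((c - z) ^ (k + 1) * (z - c) /
          (1 - c * (z + w) + z * w) ^ (k + 1 + 1)) := by
      rw [← mul_div_assoc, div_eq_div_iff (pow_ne_zero 2 (pow_ne_zero _ hD)) (pow_ne_zero _ hD)]
      ring
    have q2 : (0 * (1 - c * w) ^ (k + 1) - c ^ (k + 1) * (((k : ℂ) + 1) * (1 - c * w) ^ k *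
            -(c * 1))) / ((1 - c * w) ^ (k + 1)) ^ 2 =
        ((k : ℂ) + 1) * (c ^ (k + 1 + 1) / (1 - c * w) ^ (k + 1 + 1)) := by
      rw [← mul_div_assoc, div_eq_div_iff (pow_ne_zero 2 (pow_ne_zero _ h4)) (pow_ne_zero _ h4)]
      ring
    rw [q1, q2]
    ring

/-- The point `x = 9/11`. -/
noncomputable def x0 : ℂ := 9 / 11

lemma x0_eq : x0 = ((9 / 11 : ℝ) : ℂ) := by unfold x0; push_cast; ring

lemma norm_x0 : ‖x0‖ = 9 / 11 := by rw [x0_eq, Complex.norm_real]; norm_num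

lemma x0_mem : x0 ∈ ball (0 : ℂ) 1 := by rw [mem_ball_zero_iff, norm_x0]; norm_num

lemma value_eq (k : ℕ) :
    ‖((k + 1).factorial : ℂ) * (1 - c ^ 2) * (c - x0) ^ k /
          (1 - c * (x0 + x0) + x0 * x0) ^ (k + 2)‖ * (1 - ‖x0‖ ^ 2) ^ (k + 2) =
      ((k + 1).factorial : ℝ) * (8 / 9 * (38 / 33) ^ k) := by
  have h1 : (1 - c ^ 2) = ((800 / 40401 : ℝ) : ℂ) := by
    unfold c; push_cast; norm_num
  have h2 : c - x0 = ((380 / 2211 : ℝ) : ℂ) := by
    unfold c x0; push_cast; norm_num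
  have h3 : 1 - c * (x0 + x0) + x0 * x0 = ((1200 / 24321 : ℝ) : ℂ) := by
    unfold c x0; push_cast; norm_num
  rw [h1, h2, h3, norm_x0, norm_div, norm_mul, norm_mul, norm_pow, norm_pow, Complex.norm_natCast,
    Complex.norm_real, Complex.norm_real, Complex.norm_real]
  rw [Real.norm_of_nonneg (by norm_num), Real.norm_of_nonneg (by norm_num),
    Real.norm_of_nonneg (by norm_num)]
  have h4 : (1 - (9 / 11 : ℝ) ^ 2) = (67 / 10) * (1200 / 24321) := by norm_num
  rw [h4, mul_pow, div_mul_eq_mul_div, div_eq_iff (by positivity)]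
  have h5 : (38 / 33 : ℝ) ^ k = (380 / 2211) ^ k * (67 / 10) ^ k := by
    rw [← mul_pow]; norm_num
  rw [h5]
  ring

lemma value_gt {k : ℕ} (hk : 1 ≤ k) :
    ((k + 1).factorial : ℝ) < ((k + 1).factorial : ℝ) * (8 / 9 * (38 / 33) ^ k) := by
  have h1 : (38 / 33 : ℝ) ≤ (38 / 33) ^ k := by
    calc (38 / 33 : ℝ) = (38 / 33) ^ 1 := (pow_one _).symm
      _ ≤ (38 / 33) ^ k := pow_le_pow_right₀ (by norm_num) hk
  have h2 : (0 : ℝ) < ((k + 1).factorial : ℝ) := by positivity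
  nlinarith

lemma schwarzian_p_one {F : ℂ × ℂ → ℂ} (hF : IsLogBranch f F) (k : ℕ) :
    ‖schwarzian F (k + 1) 1 x0‖ * (1 - ‖x0‖ ^ 2) ^ (k + 2) =
      ((k + 1).factorial : ℝ) * (8 / 9 * (38 / 33) ^ k) := by
  rw [← value_eq k]
  unfold schwarzian
  rw [iter_z hF x0_mem k x0 x0_mem]

lemma schwarzian_one_p {F : ℂ × ℂ → ℂ} (hF : IsLogBranch f F) (k : ℕ) :
    ‖schwarzian F 1 (k + 1) x0‖ * (1 - ‖x0‖ ^ 2) ^ (k + 2) =
      ((k + 1).factorial : ℝ) * (8 / 9 * (38 / 33) ^ k) := by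
  rw [← value_eq k]
  congr 1
  unfold schwarzian
  have hx := x0_mem
  have hD := D_ne hx hx
  rw [iteratedDeriv_one]
  have h : (fun z' => iteratedDeriv (k + 1) (fun w' => F (z', w')) x0) =ᶠ[nhds x0]
      (fun z => (k.factorial : ℂ) * ((-1) ^ k * (z - c) ^ (k + 1) /
        (1 - c * (z + x0) + z * x0) ^ (k + 1) + c ^ (k + 1) / (1 - c * x0) ^ (k + 1))) := by
    filter_upwards [isOpen_ball.mem_nhds hx] with z' hz'
    rw [iter_w hF hz' k x0 hx]
    congr 3
    rw [pow_succ, ← mul_assoc, ← mul_pow]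
    ring
  rw [h.deriv_eq]
  have h2 : HasDerivAt (fun z' : ℂ => (1 - c * (z' + x0) + z' * x0)) (-(c * 1) + 1 * x0) x0 :=
    ((((hasDerivAt_id x0).add_const x0).const_mul c).const_sub 1).add
      ((hasDerivAt_id x0).mul_const x0)
  have h1 : HasDerivAt (fun z' : ℂ => (-1) ^ k * (z' - c) ^ (k + 1))
      ((-1) ^ k * (((k + 1 : ℕ) : ℂ) * (x0 - c) ^ (k + 1 - 1) * 1)) x0 :=
    (((hasDerivAt_id x0).sub_const c).fun_pow (k + 1)).const_mul _
  have h3 := (((h1.fun_div (h2.fun_pow (k + 1)) (pow_ne_zero _ hD)).add_const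
    (c ^ (k + 1) / (1 - c * x0) ^ (k + 1))).const_mul (k.factorial : ℂ))
  rw [h3.deriv]
  rw [Nat.factorial_succ k]
  have h6 : (c - x0) ^ k = (-1) ^ k * (x0 - c) ^ k := by
    rw [← mul_pow]; ring
  rw [h6]
  congr 1
  rw [← mul_div_assoc, div_eq_div_iff (pow_ne_zero 2 (pow_ne_zero _ hD)) (pow_ne_zero _ hD)]
  push_cast
  ring

/-- **Main theorem.** There are a single function `f ∈ S` (with its branch `F` of the logarithm)
such that for every `p ≥ 2` the norms of `S_f^{[p,1]}` and of `S_f^{[1,p]}` exceed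
`(p + 1 - 1)!`. In particular the conjectured bound `(p+q-1)!` for `p ≠ q` is false. -/
theorem result :
    ∃ f : ℂ → ℂ, ClassS f ∧ (∃ F : ℂ × ℂ → ℂ, IsLogBranch f F) ∧
      ∀ F : ℂ × ℂ → ℂ, IsLogBranch f F → ∀ p : ℕ, 2 ≤ p →
        ((p + 1 - 1).factorial : ℝ≥0∞) < bNorm (p + 1) (schwarzian F p 1) ∧
        ((1 + p - 1).factorial : ℝ≥0∞) < bNorm (1 + p) (schwarzian F 1 p) := by
  refine ⟨f, f_classS, ⟨F0, F0_branch⟩, ?_⟩
  intro F hF p hp
  obtain ⟨k, rfl⟩ : ∃ k, p = k + 1 := ⟨p - 1, by omega⟩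
  have hk : 1 ≤ k := by omega
  have e1 : k + 1 + 1 - 1 = k + 1 := by omega
  have e2 : 1 + (k + 1) - 1 = k + 1 := by omega
  have e3 : 1 + (k + 1) = k + 1 + 1 := by omega
  rw [e1, e2, e3]
  constructor
  · refine lt_of_lt_of_le ?_ (le_iSup₂ x0 x0_mem)
    rw [← ENNReal.ofReal_natCast]
    have := schwarzian_p_one hF k
    have e4 : k + 1 + 1 = k + 2 := rfl
    rw [e4, this, ENNReal.ofReal_lt_ofReal_iff (by positivity)]
    exact value_gt hk
  · refine lt_of_lt_of_le ?_ (le_iSup₂ x0 x0_mem)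
    rw [← ENNReal.ofReal_natCast]
    have := schwarzian_one_p hF k
    have e4 : k + 1 + 1 = k + 2 := rfl
    rw [e4, this, ENNReal.ofReal_lt_ofReal_iff (by positivity)]
    exact value_gt hk

end Pool.Agent.Results.MP_9404a8_an.FailsPOne
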